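import Pool.Agent.H71.ASF.StmtsM

/-!
# ASF, block S: common lemmas
-/

set_option autoImplicit false

namespace ASF

universe u

namespace H29

section

variable {R : Type} [CommRing R] {A : Type u} [NonUnitalNonAssocRing A] [Module R A]
  [IsScalarTower R A A] [SMulCommClass R A A] {A' : Type u} [NonUnitalNonAssocRing A'] [Module R A']
  [IsScalarTower R A' A'] [SMulCommClass R A' A'] (π : A →ₗ[R] A')

omit [IsScalarTower R A A] [SMulCommClass R A A] [IsScalarTower R A' A'] [SMulCommClass R A' A'] in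
theorem pi_asc (h : ∀ x y, π (x * y) = π x * π y) (x y z : A) :
    π (asc x y z) = asc (π x) (π y) (π z) := by
  simp only [asc, map_sub, h]

omit [IsScalarTower R A A] [SMulCommClass R A A] [IsScalarTower R A' A'] [SMulCommClass R A' A'] in
theorem pi_cm (h : ∀ x y, π (x * y) = π x * π y) (x y : A) : π (cm x y) = cm (π x) (π y) := by
  simp only [cm, map_sub, h]

omit [IsScalarTower R A A] [SMulCommClass R A A] [IsScalarTower R A' A'] [SMulCommClass R A' A'] in
theorem pi_dl (h : ∀ x y, π (x * y) = π x * π y) (b c x : A) : π (dl b c x) = dl (π b) (π c) (π x) := by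
  simp only [dl, pi_asc π h]

omit [IsScalarTower R A A] [SMulCommClass R A A] [IsScalarTower R A' A'] [SMulCommClass R A' A'] in
theorem pi_DS (h : ∀ x y, π (x * y) = π x * π y) (u v x : A) :
    π (DS u v x) = DS (π u) (π v) (π x) := by
  simp only [DS, map_sub, map_nsmul, pi_cm π h, pi_asc π h]

omit [IsScalarTower R A A] [SMulCommClass R A A] [IsScalarTower R A' A'] [SMulCommClass R A' A'] in
theorem pi_nu (h : ∀ x y, π (x * y) = π x * π y) (b1 b2 b3 x y : A) :
    π (nu b1 b2 b3 x y) = nu (π b1) (π b2) (π b3) (π x) (π y) := by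
  simp only [nu, map_add, pi_cm π h, pi_dl π h]

omit [IsScalarTower R A A] [SMulCommClass R A A] [IsScalarTower R A' A'] [SMulCommClass R A' A'] in
/-- `V = 0` in a quotient -/
theorem V_map (h : ∀ x y, π (x * y) = π x * π y) (hs : Function.Surjective π) {B : Submodule R A}
    (hV : ∀ b ∈ B, ∀ c ∈ B, ∀ x : A, asc x b c = 0) :
    ∀ b ∈ B.map π, ∀ c ∈ B.map π, ∀ x : A', asc x b c = 0 := by
  rintro _ ⟨b, hb, rfl⟩ _ ⟨c, hc, rfl⟩ x
  obtain ⟨x, rfl⟩ := hs x
  rw [← pi_asc π h, hV b hb c hc x, map_zero]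

end

section

variable {R : Type} [CommRing R] {A : Type u} [NonUnitalNonAssocRing A] [Module R A]
  [IsScalarTower R A A] [SMulCommClass R A A]

omit [IsScalarTower R A A] [SMulCommClass R A A] in
theorem idl_mul_right {I : Submodule R A} (h : IsIdl I) {x : A} (hx : x ∈ I) (a : A) : x * a ∈ I :=
  (h x hx a).2

omit [IsScalarTower R A A] [SMulCommClass R A A] in
theorem idl_mul_left {I : Submodule R A} (h : IsIdl I) {x : A} (hx : x ∈ I) (a : A) : a * x ∈ I :=
  (h x hx a).1

omit [IsScalarTower R A A] [SMulCommClass R A A] in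
theorem idl_asc1 {I : Submodule R A} (h : IsIdl I) {x : A} (hx : x ∈ I) (a b : A) : asc x a b ∈ I :=
  I.sub_mem (idl_mul_right h (idl_mul_right h hx a) b) (idl_mul_right h hx _)

omit [IsScalarTower R A A] [SMulCommClass R A A] in
theorem idl_cm1 {I : Submodule R A} (h : IsIdl I) {x : A} (hx : x ∈ I) (a : A) : cm x a ∈ I :=
  I.sub_mem (idl_mul_right h hx a) (idl_mul_left h hx a)

omit [IsScalarTower R A A] [SMulCommClass R A A] in
theorem idl_DS1 {I : Submodule R A} (h : IsIdl I) {x : A} (hx : x ∈ I) (a b : A) : DS x a b ∈ I :=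
  I.sub_mem (idl_cm1 h (idl_cm1 h hx a) b) (I.nsmul_mem (idl_asc1 h hx a b) 3)

omit [IsScalarTower R A A] [SMulCommClass R A A] in
theorem idl_dl1 {I : Submodule R A} (h : IsIdl I) {x : A} (hx : x ∈ I) (b c : A) : dl b c x ∈ I :=
  idl_asc1 h hx b c

omit [IsScalarTower R A A] [SMulCommClass R A A] in
theorem idl_bot : Idl R ((⊥ : Submodule R A) : Set A) = ⊥ := by
  rw [eq_bot_iff, Idl]
  refine sInf_le ⟨?_, le_rfl⟩
  intro x hx a
  rw [Submodule.mem_bot] at hx ⊢
  subst hx
  simp

/-- **descent**: pass to the quotient by a solvable ideal -/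
theorem desc (hD : DESStmt.{u}) (hO : ISOStmt.{u}) [Alt A] {q : ℕ} {𝒜 : ZMod q → Submodule R A}
    {B : Submodule R A} (hG : GP q 𝒜 B) {K : Submodule R A} (hK : IsIdl K) (hS : Solv K)
    (h : ∀ (A' : Type u) (_ : NonUnitalNonAssocRing A') (_ : Module R A')
      (_ : IsScalarTower R A' A') (_ : SMulCommClass R A' A') (_ : Alt A') (π : A →ₗ[R] A'),
      (∀ x y, π (x * y) = π x * π y) → Function.Surjective π → (∀ x, π x = 0 ↔ x ∈ K) →
      GP q (fun i => (𝒜 i).map π) (B.map π) → Solv (Idl R (B.map π : Set A'))) :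
    Solv (Idl R (B : Set A)) := by
  obtain ⟨m, hm⟩ := hD R A q 𝒜 B K hG hK h
  exact (hO R A).2.2.1 _ K m hm hS

end

end H29

end ASF
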