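import Pool.Agent.H29.ASF.Help

/-!
# ASF, modules SWA, SWB, SWC, SV0: the case `V = 0`
-/

set_option autoImplicit false

namespace ASF

universe u

open H29

/-- SWA -/
theorem swa (h1 : OI3Stmt.{u}) (h2 : CWOStmt.{u}) (h3 : CWHStmt.{u}) (h4 : IDWStmt.{u})
    (h5 : IDPStmt.{u}) (h6 : ISOStmt.{u}) (h7 : DESStmt.{u}) (h8 : INTStmt.{u}) : SWAStmt.{u} := by
  intro R _ hR q _ k hc A _ _ _ _ _ 𝒜 B hG hV hW hDS
  have : NT A := h8 R A hR
  have hO := h2 R A B hG.null hV k hW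
  obtain ⟨hKi, hKs, -, -⟩ := h4 R A ((WW B k : Submodule R A) : Set A)
  obtain ⟨hBi, hBs, hBm, -⟩ := h4 R A (B : Set A)
  have hKB : Idl R ((WW B k : Submodule R A) : Set A) ≤ Idl R (B : Set A) :=
    (h4 R A ((WW B k : Submodule R A) : Set A)).2.2.1 _ hBi ((h3 R A q 𝒜 B hG).2.1 k)
  have hprod : ∀ x ∈ Idl R ((WW B k : Submodule R A) : Set A), ∀ y ∈ Idl R (B : Set A), x * y = 0 := by
    apply h5 R A
    intro x hx y hy l m
    exact (h1 A x y (hO x hx y hy) (hDS x hx) l m).1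
  have hsol : Solv (Idl R ((WW B k : Submodule R A) : Set A)) :=
    (h6 R A).2.2.2 _ fun x hx y hy => hprod x hx y (hKB hy)
  refine desc h7 h6 hG hKi hsol ?_
  intro A' _ _ _ _ _ π hm hs hker hG'
  refine hc A' _ _ hG' (V_map π hm hs hV) ?_
  rw [← (h3 R A q 𝒜 B hG).2.2 A' π hm hs k, eq_bot_iff]
  rintro _ ⟨x, hx, rfl⟩
  exact (Submodule.mem_bot R).2 ((hker x).2 (hKs hx))

/-- SWB -/
theorem swb (h1 : ODKStmt.{u}) (h2 : CWOStmt.{u}) (h3 : CWHStmt.{u}) (h4 : IDWStmt.{u})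
    (h5 : IDPStmt.{u}) (h6 : ISOStmt.{u}) (h7 : DESStmt.{u}) (h8 : INTStmt.{u}) : SWBStmt.{u} := by
  intro R _ hR q _ k hc A _ _ _ _ _ 𝒜 B hG hV hW hS2
  have : NT A := h8 R A hR
  have hO := h2 R A B hG.null hV k hW
  obtain ⟨hKi, hKs, hKm, -⟩ := h4 R A {z : A | ∃ r ∈ WW B k, ∃ a x : A, z = DS r a x}
  obtain ⟨hBi, hBs, hBm, -⟩ := h4 R A (B : Set A)
  have hKB : Idl R {z : A | ∃ r ∈ WW B k, ∃ a x : A, z = DS r a x} ≤ Idl R (B : Set A) := by
    refine hKm _ hBi ?_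
    rintro z ⟨r, hr, a, x, rfl⟩
    exact idl_DS1 hBi ((h3 R A q 𝒜 B hG).2.1 k hr) a x
  have hprod : ∀ x ∈ Idl R {z : A | ∃ r ∈ WW B k, ∃ a x : A, z = DS r a x},
      ∀ y ∈ Idl R (B : Set A), x * y = 0 := by
    apply h5 R A
    rintro z ⟨r, hr, a, x, rfl⟩ y hy l m
    exact (h1 A r y (hO r hr y hy) (fun a c => (hS2 r hr y hy a c).1)
      (fun a c => (hS2 r hr y hy a c).2) a x l m).1
  have hsol : Solv (Idl R {z : A | ∃ r ∈ WW B k, ∃ a x : A, z = DS r a x}) :=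
    (h6 R A).2.2.2 _ fun x hx y hy => hprod x hx y (hKB hy)
  refine desc h7 h6 hG hKi hsol ?_
  intro A' _ _ _ _ _ π hm hs hker hG'
  refine hc A' _ _ hG' (V_map π hm hs hV) ?_ ?_
  · rw [← (h3 R A q 𝒜 B hG).2.2 A' π hm hs (k + 1), hW, Submodule.map_bot]
  · intro r' hr' a' x'
    rw [← (h3 R A q 𝒜 B hG).2.2 A' π hm hs k] at hr'
    obtain ⟨r, hr, rfl⟩ := hr'
    obtain ⟨a, rfl⟩ := hs a'
    obtain ⟨x, rfl⟩ := hs x'
    rw [← pi_DS π hm]
    exact (hker _).2 (hKs ⟨r, hr, a, x, rfl⟩)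

/-- SWC -/
theorem swc (h1 : ONUStmt.{u}) (h2 : CWOStmt.{u}) (h3 : CWHStmt.{u}) (h4 : TNIStmt.{u})
    (h5 : IDWStmt.{u}) (h6 : ISOStmt.{u}) (h7 : DESStmt.{u}) (h8 : INTStmt.{u}) : SWCStmt.{u} := by
  intro R _ hR q _ k hc A _ _ _ _ _ 𝒜 B hG hV hW
  have : NT A := h8 R A hR
  have hO := h2 R A B hG.null hV k hW
  obtain ⟨hKi, hKs, hKm, -⟩ := h5 R A {n : A | Nuc n ∧ ∃ i, n ∈ 𝒜 i}
  have hsol := h4 R A q 𝒜 hG.grd hG.sol
  -- the second level lies in `K`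
  have key : ∀ s ∈ B, ∀ r ∈ WW B k, ∀ a c : A,
      asc r a c * s ∈ Idl R {n : A | Nuc n ∧ ∃ i, n ∈ 𝒜 i} ∧
      s * asc r a c ∈ Idl R {n : A | Nuc n ∧ ∃ i, n ∈ 𝒜 i} := by
    intro s hs r hr a c
    have hr' := (h3 R A q 𝒜 B hG).1 k hr
    clear hr
    have hsup : ∀ z : A, z ∈ ⨆ i, 𝒜 i := fun z => by rw [hG.grd.sup]; trivial
    induction hr' using Submodule.span_induction with
    | mem r hr1 =>
      obtain ⟨hrW, i, hri⟩ := hr1
      refine Submodule.iSup_induction 𝒜 (motive := fun a =>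
        asc r a c * s ∈ Idl R {n : A | Nuc n ∧ ∃ i, n ∈ 𝒜 i} ∧
        s * asc r a c ∈ Idl R {n : A | Nuc n ∧ ∃ i, n ∈ 𝒜 i}) (hsup a) ?_ ?_ ?_
      · intro j a ha
        refine Submodule.iSup_induction 𝒜 (motive := fun c =>
          asc r a c * s ∈ Idl R {n : A | Nuc n ∧ ∃ i, n ∈ 𝒜 i} ∧
          s * asc r a c ∈ Idl R {n : A | Nuc n ∧ ∃ i, n ∈ 𝒜 i}) (hsup c) ?_ ?_ ?_
        · intro l c hc
          have hdeg : asc r a c ∈ 𝒜 (i + j + l) := by
            refine Submodule.sub_mem _ (hG.grd.mul _ _ _ (hG.grd.mul _ _ _ hri _ ha) _ hc) ?_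
            rw [add_assoc]
            exact hG.grd.mul _ _ _ hri _ (hG.grd.mul _ _ _ ha _ hc)
          have hN := h1 A r s (hO r hrW s hs) a c
          exact ⟨hKs ⟨hN.1, _, hG.grd.mul _ _ _ hdeg _ (hG.le hs)⟩,
            hKs ⟨hN.2, _, hG.grd.mul _ _ _ (hG.le hs) _ hdeg⟩⟩
        · have e : asc r a (0 : A) = 0 := by simp [asc]
          rw [e, zero_mul, mul_zero]
          exact ⟨Submodule.zero_mem _, Submodule.zero_mem _⟩
        · intro c c' hc hc'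
          have e : asc r a (c + c') = asc r a c + asc r a c' := by
            simp only [asc, mul_add]; abel
          rw [e, add_mul, mul_add]
          exact ⟨Submodule.add_mem _ hc.1 hc'.1, Submodule.add_mem _ hc.2 hc'.2⟩
      · have e : asc r (0 : A) c = 0 := by simp [asc]
        rw [e, zero_mul, mul_zero]
        exact ⟨Submodule.zero_mem _, Submodule.zero_mem _⟩
      · intro a a' ha ha'
        have e : asc r (a + a') c = asc r a c + asc r a' c := by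
          simp only [asc, mul_add, add_mul]; abel
        rw [e, add_mul, mul_add]
        exact ⟨Submodule.add_mem _ ha.1 ha'.1, Submodule.add_mem _ ha.2 ha'.2⟩
    | zero =>
      have e : asc (0 : A) a c = 0 := by simp [asc]
      rw [e, zero_mul, mul_zero]
      exact ⟨Submodule.zero_mem _, Submodule.zero_mem _⟩
    | add x y hx hy ihx ihy =>
      have e : asc (x + y) a c = asc x a c + asc y a c := by
        simp only [asc, add_mul]; abel
      rw [e, add_mul, mul_add]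
      exact ⟨Submodule.add_mem _ ihx.1 ihy.1, Submodule.add_mem _ ihx.2 ihy.2⟩
    | smul t x hx ih =>
      have e : asc (t • x) a c = t • asc x a c := by
        simp only [asc, smul_mul_assoc, smul_sub]
      rw [e, smul_mul_assoc, mul_smul_comm]
      exact ⟨Submodule.smul_mem _ _ ih.1, Submodule.smul_mem _ _ ih.2⟩
  refine desc h7 h6 hG hKi hsol ?_
  intro A' _ _ _ _ _ π hm hs hker hG'
  refine hc A' _ _ hG' (V_map π hm hs hV) ?_ ?_
  · rw [← (h3 R A q 𝒜 B hG).2.2 A' π hm hs (k + 1), hW, Submodule.map_bot]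
  · rintro r' hr' _ ⟨s, hsB, rfl⟩ a' c'
    rw [← (h3 R A q 𝒜 B hG).2.2 A' π hm hs k] at hr'
    obtain ⟨r, hr, rfl⟩ := hr'
    obtain ⟨a, rfl⟩ := hs a'
    obtain ⟨c, rfl⟩ := hs c'
    rw [← pi_asc π hm, ← hm, ← hm]
    exact ⟨(hker _).2 (key s hsB r hr a c).1, (hker _).2 (key s hsB r hr a c).2⟩

/-- SV0 -/
theorem sv0 (h1 : SWAStmt.{u}) (h2 : SWBStmt.{u}) (h3 : SWCStmt.{u}) (h4 : CPIStmt.{u})
    (_h5 : IDWStmt.{u}) (_h6 : ISOStmt.{u}) : SV0Stmt.{u} := by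
  intro R _ hR q _ A _ _ _ _ _ 𝒜 B hG hV
  have claim : ∀ k : ℕ, ∀ (A : Type u) [NonUnitalNonAssocRing A]
      [Module R A] [IsScalarTower R A A] [SMulCommClass R A A] [Alt A]
      (𝒜 : ZMod q → Submodule R A) (B : Submodule R A), GP q 𝒜 B →
      (∀ b ∈ B, ∀ c ∈ B, ∀ x : A, asc x b c = 0) → WW B k = ⊥ → Solv (Idl R (B : Set A)) := by
    intro k
    induction k with
    | zero =>
      intro A _ _ _ _ _ 𝒜 B hG hV hW
      have hB : B = ⊥ := hW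
      subst hB
      rw [idl_bot]
      exact ⟨0, rfl⟩
    | succ k ih => exact h3 R hR q k (h2 R hR q k (h1 R hR q k ih))
  exact claim q A 𝒜 B hG hV (h4 R A q 𝒜 B hG hV)

end ASF
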